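import Pool.Agent.Y231.N4.Defs

set_option autoImplicit false

/-! Common facts on facets with four coordinates and no heights. -/

namespace Pool.Agent.Y536.N4

open Pool.Agent.Y231.N4

variable {ι : Type} [Fintype ι] {v : ι → Fin 4 → ℕ} {a : Fin 4 → ℕ} {g : ℕ}

lemma sum4 (i j k l : Fin 4) (hij : i ≠ j) (hik : i ≠ k) (hil : i ≠ l) (hjk : j ≠ k)
    (hjl : j ≠ l) (hkl : k ≠ l) (f : Fin 4 → ℚ) : ∑ x, f x = f i + f j + f k + f l := by
  have hu : (Finset.univ : Finset (Fin 4)) = {i, j, k, l} := by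
    symm
    rw [← Finset.card_eq_iff_eq_univ, Finset.card_insert_of_notMem, Finset.card_insert_of_notMem,
      Finset.card_pair hkl]
    · rfl
    · simp [hjk, hjl]
    · simp [hij, hik, hil]
  rw [hu, Finset.sum_insert (by simp [hij, hik, hil]), Finset.sum_insert (by simp [hjk, hjl]),
    Finset.sum_pair hkl]
  ring

lemma all4 (i j k l : Fin 4) (hij : i ≠ j) (hik : i ≠ k) (hil : i ≠ l) (hjk : j ≠ k)
    (hjl : j ≠ l) (hkl : k ≠ l) (x : Fin 4) : x = i ∨ x = j ∨ x = k ∨ x = l := by
  omega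

/-- the hyperplane -/
lemma hyp4 {z : ι → ℚ} (hP : Pos v z a g) (i j k l : Fin 4) (hij : i ≠ j) (hik : i ≠ k)
    (hil : i ≠ l) (hjk : j ≠ k) (hjl : j ≠ l) (hkl : k ≠ l) (x : ι) :
    (a i : ℚ) * v x i + (a j : ℚ) * v x j + (a k : ℚ) * v x k + (a l : ℚ) * v x l = g := by
  rw [← sum4 i j k l hij hik hil hjk hjl hkl fun i => (a i : ℚ) * v x i]
  exact_mod_cast hP.hyp x

/-- the sum of the coefficients of a relation is zero -/
lemma sum_zero {z : ι → ℚ} (hP : Pos v z a g) (w : ι → ℚ)
    (h : ∀ i, ∑ j, w j * (v j i : ℚ) = 0) : ∑ j, w j = 0 := by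
  have hg' : (g : ℚ) ≠ 0 := by exact_mod_cast hP.gpos.ne'
  have h1 : (∑ j, w j) * g = 0 := by
    have h2 : ∀ j, (g : ℚ) = ∑ i, (a i : ℚ) * (v j i : ℚ) := fun j => by
      exact_mod_cast (hP.hyp j).symm
    calc (∑ j, w j) * g = ∑ j, w j * (g : ℚ) := by rw [Finset.sum_mul]
      _ = ∑ j, ∑ i, (a i : ℚ) * (w j * (v j i : ℚ)) := by
          refine Finset.sum_congr rfl fun j _ => ?_
          rw [h2 j, Finset.mul_sum]
          refine Finset.sum_congr rfl fun i _ => ?_
          ring
      _ = ∑ i, (a i : ℚ) * ∑ j, w j * (v j i : ℚ) := by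
          rw [Finset.sum_comm]
          refine Finset.sum_congr rfl fun i _ => ?_
          rw [Finset.mul_sum]
      _ = 0 := by simp [h]
  exact (mul_eq_zero.1 h1).resolve_right hg'

/-- no point is a convex combination of the others -/
lemma no_single (hP : Pos v (fun _ => 0) a g) (w : ι → ℚ)
    (h : ∀ i, ∑ j, w j * (v j i : ℚ) = 0) (j0 : ι) (h0 : 0 < w j0)
    (h1 : ∀ j, j ≠ j0 → w j ≤ 0) : False := by
  classical
  have hs := sum_zero hP w h
  have hsplit : ∀ f : ι → ℚ, ∑ j, f j = f j0 + ∑ j ∈ Finset.univ.erase j0, f j := fun f =>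
    (Finset.add_sum_erase _ _ (Finset.mem_univ j0)).symm
  have hin : ∀ f : ι → ℚ, ∑ k, (if k = j0 then 0 else -(w k) / w j0) * f k =
      -(∑ k ∈ Finset.univ.erase j0, w k * f k) / w j0 := by
    intro f
    rw [hsplit, if_pos rfl, zero_mul, zero_add, neg_div, Finset.sum_div, ← Finset.sum_neg_distrib]
    refine Finset.sum_congr rfl fun k hk => ?_
    rw [if_neg (Finset.ne_of_mem_erase hk)]
    ring
  refine hP.vert j0 ⟨fun k => if k = j0 then 0 else -(w k) / w j0, fun k => ?_, if_pos rfl, ?_,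
    fun i => ?_, by simp⟩
  · dsimp only
    split_ifs with hk
    · exact le_rfl
    · exact div_nonneg (by have := h1 k hk; linarith) h0.le
  · have h2 := hin fun _ => 1
    simp only [mul_one] at h2
    rw [h2, div_eq_one_iff_eq h0.ne']
    rw [hsplit] at hs
    linarith
  · rw [hin, div_eq_iff h0.ne']
    have h3 := h i
    rw [hsplit] at h3
    linarith

section explicit

/-- a function supported on an injective family -/
lemma sum_extend {n : ℕ} (p : Fin n → ι) (hp : Function.Injective p) (s : Fin n → ℚ)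
    (f : ι → ℚ) : ∑ j, Function.extend p s (fun _ => 0) j * f j = ∑ x, s x * f (p x) := by
  classical
  rw [← Finset.sum_subset (Finset.subset_univ (Finset.univ.image p)),
    Finset.sum_image fun x _ y _ h => hp h]
  · refine Finset.sum_congr rfl fun x _ => ?_
    rw [hp.extend_apply]
  · intro j _ hj
    rw [Function.extend_apply', zero_mul]
    rintro ⟨x, hx⟩
    exact hj (Finset.mem_image.2 ⟨x, Finset.mem_univ _, hx⟩)

/-- sums of functions supported on an injective family -/
lemma sum_supp {n : ℕ} (p : Fin n → ι) (hp : Function.Injective p) (w : ι → ℚ)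
    (hw : ∀ j, (∀ x, p x ≠ j) → w j = 0) (f : ι → ℚ) :
    ∑ j, w j * f j = ∑ x, w (p x) * f (p x) := by
  classical
  rw [← Finset.sum_subset (Finset.subset_univ (Finset.univ.image p)),
    Finset.sum_image fun x _ y _ h => hp h]
  intro j _ hj
  rw [hw j, zero_mul]
  rintro x rfl
  exact hj (Finset.mem_image_of_mem _ (Finset.mem_univ _))

/-- a relation on an injective family has not exactly one positive coefficient -/
lemma no_single' {n : ℕ} (hP : Pos v (fun _ => 0) a g) (p : Fin n → ι)
    (hp : Function.Injective p) (y : Fin n → ℚ) (h : ∀ i, ∑ x, y x * (v (p x) i : ℚ) = 0)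
    (x0 : Fin n) (h0 : 0 < y x0) (h1 : ∀ x, x ≠ x0 → y x ≤ 0) : False := by
  refine no_single hP (Function.extend p y fun _ => 0) (fun i => ?_) (p x0) ?_ fun j hj => ?_
  · rw [sum_extend p hp y fun j => (v j i : ℚ)]
    exact h i
  · rw [hp.extend_apply]
    exact h0
  · by_cases hx : ∃ x, p x = j
    · obtain ⟨x, rfl⟩ := hx
      rw [hp.extend_apply]
      exact h1 x fun h => hj (by rw [h])
    · rw [Function.extend_apply' _ _ _ hx]

lemma sum_zero' {n : ℕ} {z : ι → ℚ} (hP : Pos v z a g) (p : Fin n → ι)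
    (hp : Function.Injective p) (y : Fin n → ℚ) (h : ∀ i, ∑ x, y x * (v (p x) i : ℚ) = 0) :
    ∑ x, y x = 0 := by
  have h1 := sum_zero hP (Function.extend p y fun _ => 0) fun i => by
    rw [sum_extend p hp y fun j => (v j i : ℚ)]
    exact h i
  have h2 := sum_extend p hp y fun _ => 1
  simp only [mul_one] at h2
  rw [← h2]
  exact h1

/-- an independent family of four points is `B1` in some direction -/
lemma exists_B1 (hN : ¬ NonBS v (fun _ => 0)) (p : Fin 4 → ι) (hp : Function.Injective p)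
    (hind : ∀ y : Fin 4 → ℚ, (∀ i, ∑ x, y x * (v (p x) i : ℚ) = 0) → ∀ x, y x = 0) :
    ∃ i x0, v (p x0) i = 1 ∧ ∀ x, x ≠ x0 → v (p x) i = 0 := by
  classical
  by_contra hcon
  push Not at hcon
  apply hN
  refine ⟨Finset.univ.image p, ?_, ?_, ?_, ?_⟩
  · rw [Finset.card_image_of_injective _ hp, Finset.card_univ, Fintype.card_fin]
  · intro w hw h
    have hw' : ∀ j, (∀ x, p x ≠ j) → w j = 0 := fun j hj => hw j fun h => by
      obtain ⟨x, -, hx⟩ := Finset.mem_image.1 h
      exact hj x hx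
    have h1 := hind (fun x => w (p x)) fun i => by
      rw [← sum_supp p hp w hw' fun j => (v j i : ℚ)]
      exact h i
    intro j
    by_cases hj : ∃ x, p x = j
    · obtain ⟨x, rfl⟩ := hj
      exact h1 x
    · exact hw' j fun x hx => hj ⟨x, hx⟩
  · intro l α _ _
    simp
  · rintro i ⟨j0, hj0, h1, h2⟩
    obtain ⟨x0, -, rfl⟩ := Finset.mem_image.1 hj0
    obtain ⟨x, hx, h3⟩ := hcon i x0 h1
    exact h3 (h2 (p x) (Finset.mem_image_of_mem _ (Finset.mem_univ _)) fun h => hx (hp h))

/-- making a circuit -/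
lemma circ_mk (p : Fin 4 → ι) (hp : Function.Injective p) (k : ι) (hk : ∀ x, p x ≠ k)
    (hind : ∀ y : Fin 4 → ℚ, (∀ i, ∑ x, y x * (v (p x) i : ℚ) = 0) → ∀ x, y x = 0)
    (s c : Fin 4 → ℚ) (hs : ∀ i, ∑ x, s x * (v (p x) i : ℚ) = -1)
    (hc : ∀ i, ∑ x, c x * (v (p x) i : ℚ) = v k i) (hneg : ∀ x, NegI (s x) → c x ≠ 0)
    (G : Finset (Fin 4)) (hG : ∀ x ∈ G, c x < 0) (P : Finset (Fin 4))
    (hNP : ∀ x, NegI (s x) → x ∉ G → x ∈ P) (Z : Finset (Fin 4)) (hZG : Z ⊆ G)
    (hZ : ∀ x ∈ Z, s x = 0) (hcard : P.card ≤ Z.card) : CircS v (fun _ => 0) := by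
  classical
  have hkr : ¬ ∃ x, p x = k := fun ⟨x, hx⟩ => hk x hx
  have hmem : ∀ j, j ∈ Finset.univ.image p ↔ ∃ x, p x = j := fun j => by simp
  have hse : ∀ x, Function.extend p s (fun _ => 0) (p x) = s x := fun x => hp.extend_apply _ _ _
  have hs0 : ∀ j, (¬ ∃ x, p x = j) → Function.extend p s (fun _ => 0) j = 0 := fun j hj =>
    Function.extend_apply' _ _ _ hj
  have hn0 : ¬ NegI 0 := by
    rintro ⟨m, hm, h⟩
    have h1 : (0 : ℚ) < m := by exact_mod_cast hm
    linarith
  set c' : ι → ℚ := fun j => if j = k then -1 else Function.extend p c (fun _ => 0) j with hc'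
  have hcp : ∀ x, c' (p x) = c x := fun x => by
    simp only [hc']
    rw [if_neg (hk x), hp.extend_apply]
  have hck : c' k = -1 := by simp [hc']
  have hc0 : ∀ j, (¬ ∃ x, p x = j) → j ≠ k → c' j = 0 := fun j hj hjk => by
    simp only [hc']
    rw [if_neg hjk, Function.extend_apply' _ _ _ hj]
  have hcsum : ∀ f : ι → ℚ, ∑ j, c' j * f j = ∑ x, c x * f (p x) - f k := by
    intro f
    have e1 : ∑ j, c' j * f j = ∑ j, (Function.extend p c (fun _ => 0) j * f j +
        if j = k then -f j else 0) := by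
      refine Finset.sum_congr rfl fun j _ => ?_
      simp only [hc']
      split_ifs with h
      · rw [h, Function.extend_apply' _ _ _ hkr]
        ring
      · ring
    rw [e1, Finset.sum_add_distrib, sum_extend p hp c f, Finset.sum_ite_eq' Finset.univ k]
    simp only [Finset.mem_univ, if_true]
    ring
  refine ⟨Finset.univ.image p, k, Function.extend p s fun _ => 0, c', insert k (G.image p),
    ?_, ?_, ?_, ?_, ?_, ?_, ?_, hck, ?_, ?_, ?_, ?_, ?_⟩
  · rw [hmem]
    exact hkr
  · rw [Finset.card_image_of_injective _ hp, Finset.card_univ, Fintype.card_fin]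
  · intro w hw h
    have hw' : ∀ j, (∀ x, p x ≠ j) → w j = 0 := fun j hj => hw j fun h => by
      obtain ⟨x, -, hx⟩ := Finset.mem_image.1 h
      exact hj x hx
    have h1 := hind (fun x => w (p x)) fun i => by
      rw [← sum_supp p hp w hw' fun j => (v j i : ℚ)]
      exact h i
    intro j
    by_cases hj : ∃ x, p x = j
    · obtain ⟨x, rfl⟩ := hj
      exact h1 x
    · exact hw' j fun x hx => hj ⟨x, hx⟩
  · intro l α _ _
    simp
  · intro j hj
    rw [hmem] at hj
    exact hs0 j hj
  · intro i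
    rw [sum_extend p hp s fun j => (v j i : ℚ)]
    exact hs i
  · intro j hj hjk
    rw [hmem] at hj
    exact hc0 j hj hjk
  · intro i
    rw [hcsum fun j => (v j i : ℚ), hc i, sub_self]
  · intro j hj
    by_cases hx : ∃ x, p x = j
    · obtain ⟨x, rfl⟩ := hx
      rw [hse] at hj
      rw [hcp]
      exact hneg x hj
    · rw [hs0 j hx] at hj
      exact absurd hj hn0
  · intro j hj
    rcases Finset.mem_insert.1 hj with rfl | hj
    · rw [hck]
      norm_num
    · obtain ⟨x, hx, rfl⟩ := Finset.mem_image.1 hj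
      rw [hcp]
      exact hG x hx
  · have h1 : (Finset.univ.filter fun j => NegI (Function.extend p s (fun _ => 0) j) ∧
        j ∉ insert k (G.image p)) ⊆ P.image p := by
      intro j hj
      obtain ⟨-, h2, h3⟩ := Finset.mem_filter.1 hj
      by_cases hx : ∃ x, p x = j
      · obtain ⟨x, rfl⟩ := hx
        rw [hse] at h2
        refine Finset.mem_image_of_mem _ (hNP x h2 fun h4 => h3 ?_)
        exact Finset.mem_insert_of_mem (Finset.mem_image_of_mem _ h4)
      · rw [hs0 j hx] at h2
        exact absurd h2 hn0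
    have h2 : insert k (Z.image p) ⊆ (insert k (G.image p)).filter
        fun j => Function.extend p s (fun _ => 0) j = 0 := by
      intro j hj
      rw [Finset.mem_filter]
      rcases Finset.mem_insert.1 hj with rfl | hj
      · exact ⟨Finset.mem_insert_self _ _, hs0 _ hkr⟩
      · obtain ⟨x, hx, rfl⟩ := Finset.mem_image.1 hj
        exact ⟨Finset.mem_insert_of_mem (Finset.mem_image_of_mem _ (hZG hx)), by
          rw [hse]
          exact hZ x hx⟩
    have h3 := Finset.card_le_card h1
    have h4 := Finset.card_le_card h2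
    have h5 : k ∉ Z.image p := by
      intro h
      obtain ⟨x, -, hx⟩ := Finset.mem_image.1 h
      exact hk x hx
    rw [Finset.card_insert_of_notMem h5, Finset.card_image_of_injective _ hp] at h4
    have h6 := Finset.card_image_le (s := P) (f := p)
    omega
  · intro l α _ _ j _ _ _
    simp

lemma not_negI {x : ℚ} (h : -1 < x) : ¬ NegI x := by
  rintro ⟨m, hm, hx⟩
  have h1 : (1 : ℚ) ≤ m := by exact_mod_cast hm
  linarith

end explicit

end Pool.Agent.Y536.N4
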